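import Pool.Agent.AsyncSeg.Main

/-!
The bad execution.
-/

namespace Pool.Agent.AsyncSeg

section construction

variable {m : ℕ} (f : Protocol) (c : Frame) (a : ℝ) (ha1 : a < 1) (y : Fin (m + 2) → ℝ)
  (ζ : ℝ) (K : ℕ) (js : Fin (m + 2))

/-- the configuration after the early stop of sensor `js.succ` -/
noncomputable def WW : Fin (m + 3) → ℝ :=
  Function.update (lift a (runs f (subFrame c a ha1) y (K + 1))) js.succ (a + (1 - a) * ζ)

/-- the configuration after the early stop of sensor `1` -/
noncomputable def ZZ : Fin (m + 3) → ℝ :=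
  Function.update (WW f c a ha1 y ζ K js) 1 (a + (1 - a) * ζ)

/-- the successive configurations -/
noncomputable def CC (r : ℕ) : Fin (m + 3) → ℝ :=
  if r ≤ K then lift a (runs f (subFrame c a ha1) y r)
  else if r = K + 1 then WW f c a ha1 y ζ K js
  else runs (m := m + 1) f c (ZZ f c a ha1 y ζ K js) (r - (K + 2))

/-- the rounds of the Looks -/
def aS (K : ℕ) (i : Fin (m + 3)) (k : ℕ) : ℕ :=
  if i = 1 then (if k = 0 then 0 else K + 1 + k) else (if k ≤ K then k else k + 1)

/-- the rounds of the Moves -/
def bS (K : ℕ) (i : Fin (m + 3)) (k : ℕ) : ℕ :=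
  if i = 1 then K + 1 + k else (if k ≤ K then k else k + 1)

theorem CC_le {r : ℕ} (h : r ≤ K) :
    CC f c a ha1 y ζ K js r = lift a (runs f (subFrame c a ha1) y r) := if_pos h

theorem CC_W : CC f c a ha1 y ζ K js (K + 1) = WW f c a ha1 y ζ K js := by
  simp [CC]

theorem CC_Z (r : ℕ) : CC f c a ha1 y ζ K js (K + 2 + r) =
    runs (m := m + 1) f c (ZZ f c a ha1 y ζ K js) r := by
  have h1 : ¬ (K + 2 + r ≤ K) := by omega
  have h2 : ¬ (K + 2 + r = K + 1) := by omega
  have h3 : K + 2 + r - (K + 2) = r := by omega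
  simp [CC, h1, h2, h3]

theorem one_eq : (1 : Fin (m + 3)) = (0 : Fin (m + 2)).succ := rfl

variable {f c a y ζ K js}

theorem WW_zero : WW f c a ha1 y ζ K js 0 = 0 := by
  unfold WW
  rw [Function.update_of_ne (Fin.succ_ne_zero js).symm, lift_zero]

theorem WW_one (h0 : y 0 = 0) (hj0 : js ≠ 0) : WW f c a ha1 y ζ K js 1 = a := by
  unfold WW
  have hne : (1 : Fin (m + 3)) ≠ js.succ := by
    rw [one_eq]
    exact fun h => hj0 (Fin.succ_injective _ h).symm
  rw [Function.update_of_ne hne, one_eq, lift_succ, runs_left, h0]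
  ring

theorem WW_last (h1 : y (Fin.last (m + 1)) = 1) (hjl : js ≠ Fin.last (m + 1)) :
    WW f c a ha1 y ζ K js (Fin.last (m + 2)) = 1 := by
  unfold WW
  have hne : (Fin.last (m + 2) : Fin (m + 3)) ≠ js.succ := by
    rw [← Fin.succ_last]
    exact fun h => hjl (Fin.succ_injective _ h).symm
  rw [Function.update_of_ne hne, ← Fin.succ_last, lift_succ, runs_right, h1]
  ring

theorem ZZ_zero : ZZ f c a ha1 y ζ K js 0 = 0 := by
  unfold ZZ
  have hne : (0 : Fin (m + 3)) ≠ 1 := by
    rw [one_eq]; exact (Fin.succ_ne_zero _).symm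
  rw [Function.update_of_ne hne, WW_zero]

theorem ZZ_one : ZZ f c a ha1 y ζ K js 1 = a + (1 - a) * ζ := by
  unfold ZZ
  rw [Function.update_self]

theorem last_ne_one : (Fin.last (m + 2) : Fin (m + 3)) ≠ 1 := by
  intro h
  have := congrArg Fin.val h
  simp at this

theorem ZZ_last (h1 : y (Fin.last (m + 1)) = 1) (hjl : js ≠ Fin.last (m + 1)) :
    ZZ f c a ha1 y ζ K js (Fin.last (m + 2)) = 1 := by
  unfold ZZ
  rw [Function.update_of_ne last_ne_one, WW_last ha1 h1 hjl]

theorem ZZ_js (hj0 : js ≠ 0) : ZZ f c a ha1 y ζ K js js.succ = a + (1 - a) * ζ := by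
  unfold ZZ
  have hne : js.succ ≠ (1 : Fin (m + 3)) := by
    rw [one_eq]
    exact fun h => hj0 (Fin.succ_injective _ h)
  rw [Function.update_of_ne hne]
  unfold WW
  rw [Function.update_self]

theorem ZZ_of_ne {i : Fin (m + 3)} (hi : i ≠ 1) :
    ZZ f c a ha1 y ζ K js i = WW f c a ha1 y ζ K js i := by
  unfold ZZ
  rw [Function.update_of_ne hi]

theorem rounds_bad (ha : 0 < a) (hy : StrictMono y) (h0 : y 0 = 0)
    (h1 : y (Fin.last (m + 1)) = 1) (hζ : 0 < ζ) (hj0 : js ≠ 0) (hjl : js ≠ Fin.last (m + 1))
    (hK : ∀ r ≤ K, ∀ j, j ≠ 0 → j ≠ Fin.last (m + 1) → ζ < runs f (subFrame c a ha1) y r j)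
    (hjs : runs f (subFrame c a ha1) y (K + 1) js ≤ ζ)
    (hz : a + (1 - a) * ζ ≤ a + moveBy f c (lift a y) 1) :
    ∃ δ, RoundsOK (m := m + 1) f c δ (CC f c a ha1 y ζ K js) (aS K) (bS K) := by
  have h1a : 0 < 1 - a := by linarith
  have hKjs := hK K le_rfl js hj0 hjl
  refine ⟨min ((1 - a) * (runs f (subFrame c a ha1) y K js - ζ)) ((1 - a) * ζ), ?_⟩
  constructor
  · exact lt_min (mul_pos h1a (by linarith)) (mul_pos h1a hζ)
  · rw [CC_le (h := Nat.zero_le K), runs_zero]
    intro i j hij
    refine Fin.cases ?_ (fun i => ?_) i hij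
    · refine Fin.cases ?_ (fun j => ?_) j
      · intro h; exact absurd h (lt_irrefl _)
      · intro _
        rw [lift_zero, lift_succ]
        have : 0 ≤ y j := by rw [← h0]; exact hy.monotone (Fin.zero_le j)
        nlinarith
    · refine Fin.cases ?_ (fun j => ?_) j
      · intro h; exact absurd h (Fin.not_lt_zero _)
      · intro h
        rw [lift_succ, lift_succ]
        have := hy (Fin.succ_lt_succ_iff.1 h)
        nlinarith
  · intro r
    unfold CC
    split_ifs with h2 h3
    · exact lift_zero _ _
    · exact WW_zero ha1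
    · rw [runs_left, ZZ_zero]
  · intro r
    unfold CC
    split_ifs with h2 h3
    · show lift a _ (Fin.last (m + 2)) = 1
      rw [← Fin.succ_last, lift_succ, runs_right, h1]
      ring
    · exact WW_last ha1 h1 hjl
    · rw [runs_right]
      exact ZZ_last ha1 h1 hjl
  · intro i k
    unfold aS bS
    split_ifs <;> omega
  · intro i k
    by_cases hi : i = 1
    · simp only [aS, bS, hi, if_true, Nat.succ_ne_zero, if_false]
      omega
    · simp only [aS, bS, hi, if_false]
      split_ifs <;> omega
  · intro i r hr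
    by_cases hi : i = 1
    · subst hi
      have hr' : r < K + 1 := by simpa [bS] using hr
      rcases Nat.lt_or_ge r K with hlt | hge
      · rw [CC_le (h := hlt), CC_le (h := hlt.le), one_eq, lift_succ, lift_succ, runs_left,
          runs_left]
      · obtain rfl : r = K := by omega
        rw [CC_W, CC_le (h := le_rfl), WW_one ha1 h0 hj0, one_eq, lift_succ, runs_left, h0]
        ring
    · exfalso
      simp [bS, hi] at hr
  · intro i k r hr1 hr2
    by_cases hi : i = 1
    · subst hi
      simp only [bS, if_true] at hr1 hr2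
      omega
    · simp only [bS, hi, if_false] at hr1 hr2
      have hr : r = K + 1 := by
        split_ifs at hr1 hr2 <;> omega
      subst hr
      have e := CC_Z f c a ha1 y ζ K js 0
      rw [add_zero, runs_zero] at e
      rw [show K + 1 + 1 = K + 2 from rfl, e, CC_W, ZZ_of_ne ha1 hi]
  · intro i hi0 hil k
    by_cases hi : i = 1
    · subst hi
      rcases Nat.eq_zero_or_pos k with rfl | hk
      · have hb : bS K (1 : Fin (m + 3)) 0 = K + 1 := by simp [bS]
        have haS : aS K (1 : Fin (m + 3)) 0 = 0 := by simp [aS]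
        rw [hb, haS]
        have e := CC_Z f c a ha1 y ζ K js 0
        rw [add_zero, runs_zero] at e
        rw [show K + 1 + 1 = K + 2 from rfl, e, CC_W, CC_le (h := Nat.zero_le K), ZZ_one,
          WW_one ha1 h0 hj0, runs_zero]
        have e2 : lift a y 1 = a := by
          rw [one_eq, lift_succ, h0]; ring
        rw [e2]
        constructor
        · rw [Set.uIcc_of_le (by nlinarith)]
          exact ⟨by nlinarith, hz⟩
        · right
          have e3 : a + (1 - a) * ζ - a = (1 - a) * ζ := by ring
          rw [e3, abs_of_pos (mul_pos h1a hζ)]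
          exact min_le_right _ _
      · have hb : bS K (1 : Fin (m + 3)) k = K + 2 + (k - 1) := by simp [bS]; omega
        have haS : aS K (1 : Fin (m + 3)) k = K + 2 + (k - 1) := by
          have : k ≠ 0 := by omega
          simp [aS, this]
          omega
        rw [hb, haS, show K + 2 + (k - 1) + 1 = K + 2 + ((k - 1) + 1) from rfl, CC_Z, CC_Z,
          runs_succ, step_inner f c _ hi0 hil]
        exact ⟨Set.right_mem_uIcc, Or.inl rfl⟩
    · have hab : aS K i k = bS K i k := by simp [aS, bS, hi]
      rw [hab]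
      by_cases hk : k ≤ K
      · have hb : bS K i k = k := by simp [bS, hi, hk]
        rw [hb]
        -- `i = j.succ` with `j` inner
        obtain ⟨j, rfl⟩ := Fin.exists_succ_eq.2 hi0
        have hjne0 : j ≠ 0 := fun h => hi (by rw [h, one_eq])
        have hjnel : j ≠ Fin.last (m + 1) := fun h => hil (by rw [h, Fin.succ_last])
        have hpos : 0 < runs f (subFrame c a ha1) y k j := hζ.trans (hK k hk j hjne0 hjnel)
        have htar : CC f c a ha1 y ζ K js k j.succ + moveBy f c (CC f c a ha1 y ζ K js k) j.succ =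
            a + (1 - a) * runs f (subFrame c a ha1) y (k + 1) j := by
          rw [CC_le (h := hk), moveBy_lift f c ha ha1 _ (by rw [runs_left, h0]) j hpos, lift_succ,
            runs_succ, step_inner f _ _ hjne0 hjnel]
          ring
        rw [htar]
        rcases Nat.lt_or_ge k K with hlt | hge
        · rw [CC_le (h := hlt), lift_succ]
          exact ⟨Set.right_mem_uIcc, Or.inl rfl⟩
        · obtain rfl : k = K := by omega
          rw [CC_W]
          by_cases hjj : j = js
          · subst hjj
            have e1 : WW f c a ha1 y ζ k j j.succ = a + (1 - a) * ζ := by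
              unfold WW
              rw [Function.update_self]
            rw [e1, CC_le (h := le_rfl), lift_succ]
            constructor
            · rw [Set.uIcc_of_ge (by nlinarith)]
              exact ⟨by nlinarith, by nlinarith⟩
            · right
              have e3 : a + (1 - a) * ζ - (a + (1 - a) * runs f (subFrame c a ha1) y k j) =
                  -((1 - a) * (runs f (subFrame c a ha1) y k j - ζ)) := by ring
              rw [e3, abs_neg, abs_of_pos (mul_pos h1a (by linarith))]
              exact min_le_left _ _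
          · have e1 : WW f c a ha1 y ζ k js j.succ =
                a + (1 - a) * runs f (subFrame c a ha1) y (k + 1) j := by
              unfold WW
              rw [Function.update_of_ne (fun h => hjj (Fin.succ_injective _ h)), lift_succ]
            rw [e1]
            exact ⟨Set.right_mem_uIcc, Or.inl rfl⟩
      · have hb : bS K i k = K + 2 + (k - (K + 1)) := by simp [bS, hi, hk]; omega
        rw [hb, show K + 2 + (k - (K + 1)) + 1 = K + 2 + ((k - (K + 1)) + 1) from rfl, CC_Z, CC_Z,
          runs_succ, step_inner f c _ hi0 hil]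
        exact ⟨Set.right_mem_uIcc, Or.inl rfl⟩

theorem not_covering_bad (ha : 1 / 8 ≤ a) (hm : 8 ≤ m) (h0 : y 0 = 0)
    (h1 : y (Fin.last (m + 1)) = 1) (hζ : 0 < ζ) (hj0 : js ≠ 0) (hjl : js ≠ Fin.last (m + 1))
    {t : ℝ} :
    ¬ Covering (m := m + 1) ((toExec (CC f c a ha1 y ζ K js) (aS K) (bS K)).config t)
      (1 / ((m : ℝ) + 2) ^ 2) := by
  have h1a : 0 < 1 - a := by linarith
  obtain ⟨k, ρ, hρ0, hρ1, hk⟩ := posOf_eq (CC f c a ha1 y ζ K js) (t := t)
  have hconf : ∀ i, (toExec (CC f c a ha1 y ζ K js) (aS K) (bS K)).config t i =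
      CC f c a ha1 y ζ K js k i +
        ρ * (CC f c a ha1 y ζ K js (k + 1) i - CC f c a ha1 y ζ K js k i) := hk
  have hz : ∀ r, CC f c a ha1 y ζ K js r 0 = 0 := by
    intro r
    unfold CC
    split_ifs with h2 h3
    · exact lift_zero _ _
    · exact WW_zero ha1
    · rw [runs_left, ZZ_zero]
  have hl : ∀ r, CC f c a ha1 y ζ K js r (Fin.last (m + 2)) = 1 := by
    intro r
    unfold CC
    split_ifs with h2 h3
    · rw [← Fin.succ_last, lift_succ, runs_right, h1]
      ring
    · exact WW_last ha1 h1 hjl
    · rw [runs_right]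
      exact ZZ_last ha1 h1 hjl
  rcases Nat.lt_or_ge k (K + 2) with hlt | hge
  · -- sensor `1` is still far from the left end
    have hC : ∀ r ≤ K + 2, a ≤ CC f c a ha1 y ζ K js r 1 := by
      intro r hr
      rcases Nat.lt_or_ge K r with h2 | h2
      · rcases (show r = K + 1 ∨ r = K + 2 by omega) with rfl | rfl
        · rw [CC_W, WW_one ha1 h0 hj0]
        · have e := CC_Z f c a ha1 y ζ K js 0
          rw [add_zero, runs_zero] at e
          rw [e, ZZ_one]
          nlinarith
      · rw [CC_le (h := h2), one_eq, lift_succ, runs_left, h0]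
        linarith
    intro hcov
    have h2 := (hcov 0).2
    have e1 : (Fin.succ 0 : Fin (m + 1 + 2)) = 1 := rfl
    have e2 : (Fin.castSucc 0 : Fin (m + 1 + 2)) = 0 := rfl
    rw [e1, e2, hconf, hconf, hz, hz] at h2
    have h3 := hC k (by omega)
    have h4 := hC (k + 1) (by omega)
    have h5 := (abs_le.1 h2).2
    have h6 : a ≤ CC f c a ha1 y ζ K js k 1 +
        ρ * (CC f c a ha1 y ζ K js (k + 1) 1 - CC f c a ha1 y ζ K js k 1) := by
      nlinarith
    have hm' : (10 : ℝ) ≤ (m : ℝ) + 2 := by
      have : (8 : ℝ) ≤ m := by exact_mod_cast hm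
      linarith
    have h7 : 1 / ((m : ℝ) + 2) ^ 2 ≤ 1 / 100 := by
      apply one_div_le_one_div_of_le (by norm_num)
      nlinarith
    have h8 : 1 / (((m + 1 : ℕ) : ℝ) + 1) ≤ 1 / 10 := by
      push_cast
      apply one_div_le_one_div_of_le (by norm_num)
      linarith
    linarith
  · refine not_covering_of_eq ?_ ?_ js hj0 ?_
    · rw [hconf, hz, hz]; ring
    · rw [hconf, hl, hl]; ring
    · obtain ⟨r, rfl⟩ := Nat.exists_eq_add_of_le hge
      have hjs0 : js.succ ≠ (0 : Fin (m + 1 + 2)) := Fin.succ_ne_zero _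
      have hjsl : js.succ ≠ (Fin.last (m + 1 + 1)) := by
        intro h
        exact hjl (Fin.succ_injective _ (h.trans (Fin.succ_last _).symm))
      have h10 : (1 : Fin (m + 1 + 2)) ≠ 0 := by
        intro h
        have := congrArg Fin.val h
        simp at this
      have h1l : (1 : Fin (m + 1 + 2)) ≠ Fin.last (m + 1 + 1) := (last_ne_one).symm
      have hkey : ∀ r, CC f c a ha1 y ζ K js (K + 2 + r) 1 =
          CC f c a ha1 y ζ K js (K + 2 + r) js.succ := by
        intro r
        rw [CC_Z]
        refine runs_eq (m := m + 1) f c h10 h1l hjs0 hjsl ?_ r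
        rw [ZZ_js ha1 hj0]
        exact ZZ_one ha1
      rw [hconf, hconf, hkey r, show K + 2 + r + 1 = K + 2 + (r + 1) from rfl, hkey (r + 1)]

end construction

end Pool.Agent.AsyncSeg
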