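import Mathlib

/-!
# Asynchronous oblivious sensors on a segment: the model

`n = m + 2` sensors `s_0, …, s_{m+1}` lie on the line; `s_0 = 0` and `s_{m+1} = 1` never move.
Every other sensor repeats Look-Compute-Move cycles in continuous time, under an asynchronous
adversarial scheduler.
-/

namespace Pool.Agent.AsyncSeg

/-- The local coordinate system of a sensor: its unit of length and whether its orientation is
opposite to the global one (`flip = true`: its local left is the global right). -/
structure Frame where
  /-- the unit of length -/
  unit : ℝ
  unit_pos : 0 < unit
  /-- is the orientation reversed? -/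
  flip : Bool

/-- What a sensor sees: the distances to the nearest sensor strictly to its left and strictly to
its right (`⊤` if there is no such sensor), in its own coordinates, and the number of the sensors
located exactly at its own position (itself included). -/
structure View where
  /-- distance to the nearest sensor on the (local) left -/
  left : WithTop ℝ
  /-- distance to the nearest sensor on the (local) right -/
  right : WithTop ℝ
  /-- number of sensors at the own position -/
  here : ℕ

/-- A deterministic oblivious protocol: it computes from the current view the displacement to the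
destination, in local coordinates (positive: towards the local right).  All sensors run the same
protocol; it has no access to the index of the sensor, to the past, to the number of sensors or
to the length of the segment. -/
abbrev Protocol := View → ℝ

/-- distance, in units `u`, from the point `p` to the nearest sensor with smaller coordinate -/
noncomputable def distBelow {n : ℕ} (u : ℝ) (x : Fin n → ℝ) (p : ℝ) : WithTop ℝ :=
  ((Finset.univ.filter fun j => x j < p).image fun j => (p - x j) / u).min

/-- distance, in units `u`, from the point `p` to the nearest sensor with larger coordinate -/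
noncomputable def distAbove {n : ℕ} (u : ℝ) (x : Fin n → ℝ) (p : ℝ) : WithTop ℝ :=
  ((Finset.univ.filter fun j => p < x j).image fun j => (x j - p) / u).min

/-- The view, with frame `c`, of a sensor located at the point `p` when the sensors have the
positions `x`. -/
noncomputable def viewFrom {n : ℕ} (c : Frame) (x : Fin n → ℝ) (p : ℝ) : View where
  left := if c.flip then distAbove c.unit x p else distBelow c.unit x p
  right := if c.flip then distBelow c.unit x p else distAbove c.unit x p
  here := (Finset.univ.filter fun j => x j = p).card

/-- The displacement, in global coordinates, computed by sensor `i` (with frame `c`) from the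
snapshot `x` of the positions of the sensors. -/
noncomputable def moveBy {n : ℕ} (f : Protocol) (c : Frame) (x : Fin n → ℝ) (i : Fin n) : ℝ :=
  (if c.flip then -1 else 1) * (c.unit * f (viewFrom c x (x i)))

/-- An execution: the positions of the sensors at all times `t ≥ 0`, and for every sensor the
times of its successive Looks, and of the beginnings and the ends of its successive Moves. -/
structure Execution (n : ℕ) where
  /-- `pos i t`: the position of sensor `i` at time `t` -/
  pos : Fin n → ℝ → ℝ
  /-- `look i k`: the time of the snapshot of the `k`-th cycle of sensor `i` -/
  look : Fin n → ℕ → ℝ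
  /-- `start i k`: the time when sensor `i` starts its `k`-th move -/
  start : Fin n → ℕ → ℝ
  /-- `stop i k`: the time when sensor `i` ends its `k`-th move -/
  stop : Fin n → ℕ → ℝ

/-- The positions at time `t`. -/
def Execution.config {n : ℕ} (E : Execution n) (t : ℝ) : Fin n → ℝ := fun i => E.pos i t

/-- The destination of sensor `i` in its `k`-th cycle, computed from the snapshot at the time of
its `k`-th Look. -/
noncomputable def Execution.target {n : ℕ} (f : Protocol) (c : Fin n → Frame) (E : Execution n)
    (i : Fin n) (k : ℕ) : ℝ :=
  E.pos i (E.look i k) + moveBy f (c i) (E.config (E.look i k)) i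

/-- The motion `g` on the time interval `[s, e]` is a move towards `q`: it is continuous, at all
times it goes from the current point towards `q` (never backwards and never beyond `q`), and it
ends at `q` or at distance at least `δ` from its starting point. -/
def MovesTowards (g : ℝ → ℝ) (s e q δ : ℝ) : Prop :=
  ContinuousOn g (Set.Icc s e) ∧
  (∀ t t', s ≤ t → t ≤ t' → t' ≤ e → g t' ∈ Set.uIcc (g t) q) ∧
  (g e = q ∨ δ ≤ |g e - g s|)

/-- Admissible asynchronous executions of the protocol `f` by `m + 2` sensors with frames `c`;
moves are never stopped early before the distance `δ > 0`. -/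
structure Admissible {m : ℕ} (f : Protocol) (c : Fin (m + 2) → Frame) (δ : ℝ)
    (E : Execution (m + 2)) : Prop where
  delta_pos : 0 < δ
  /-- initially the sensors lie at distinct points, in this order -/
  initial : StrictMono (E.config 0)
  /-- the end sensors never move -/
  left_end : ∀ t, 0 ≤ t → E.pos 0 t = 0
  right_end : ∀ t, 0 ≤ t → E.pos (Fin.last (m + 1)) t = 1
  /-- the phases of the cycles follow each other, with positive (finite) durations -/
  look_nonneg : ∀ i, i ≠ 0 → i ≠ Fin.last (m + 1) → 0 ≤ E.look i 0
  phases : ∀ i, i ≠ 0 → i ≠ Fin.last (m + 1) → ∀ k,
    E.look i k < E.start i k ∧ E.start i k < E.stop i k ∧ E.stop i k < E.look i (k + 1)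
  /-- the infinitely many cycles of a sensor do not accumulate in time -/
  unbounded : ∀ i, i ≠ 0 → i ≠ Fin.last (m + 1) → ∀ t : ℝ, ∃ k, t < E.look i k
  /-- a sensor does not move outside of its Move phases -/
  rest_first : ∀ i, i ≠ 0 → i ≠ Fin.last (m + 1) → ∀ t, 0 ≤ t → t ≤ E.start i 0 →
    E.pos i t = E.pos i 0
  rest : ∀ i, i ≠ 0 → i ≠ Fin.last (m + 1) → ∀ k t, E.stop i k ≤ t → t ≤ E.start i (k + 1) →
    E.pos i t = E.pos i (E.stop i k)
  /-- in its Move phases it moves towards the computed destination -/
  moves : ∀ i, i ≠ 0 → i ≠ Fin.last (m + 1) → ∀ k,
    MovesTowards (E.pos i) (E.start i k) (E.stop i k) (E.target f c i k) δ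

/-- The positions `x` form an `ε`-approximate covering of the segment: with `d = 1 / (m + 1)`, all
distances `d_i` between `s_i` and `s_{i+1}` satisfy `d - ε ≤ d_i ≤ d + ε`. -/
def Covering {m : ℕ} (x : Fin (m + 2) → ℝ) (ε : ℝ) : Prop :=
  ∀ i : Fin (m + 1), 1 / ((m : ℝ) + 1) - ε ≤ |x i.succ - x i.castSucc| ∧
    |x i.succ - x i.castSucc| ≤ 1 / ((m : ℝ) + 1) + ε

end Pool.Agent.AsyncSeg
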