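import Pool.Agent.AsyncSeg.Bad

/-!
The impossibility theorem.
-/

namespace Pool.Agent.AsyncSeg

section views

variable {n : ℕ} {x : Fin (n + 3) → ℝ} (hx : StrictMono x) {u : ℝ} (hu : 0 < u)
include hx

theorem distBelow_one : distBelow u x (x 1) = (((x 1 - x 0) / u : ℝ) : WithTop ℝ) := by
  unfold distBelow
  have h1 : (Finset.univ.filter fun j => x j < x 1) = {0} := by
    ext j
    simp only [Finset.mem_filter, Finset.mem_univ, true_and, Finset.mem_singleton]
    rw [hx.lt_iff_lt]
    constructor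
    · intro h
      have h2 : (j : ℕ) < 1 := h
      exact Fin.ext (by simpa using h2)
    · rintro rfl
      show (0 : ℕ) < 1
      exact Nat.zero_lt_one
  rw [h1, Finset.image_singleton, Finset.min_singleton]

theorem here_one : (Finset.univ.filter fun j => x j = x 1).card = 1 := by
  rw [Finset.card_eq_one]
  refine ⟨1, ?_⟩
  ext j
  simp only [Finset.mem_filter, Finset.mem_univ, true_and, Finset.mem_singleton]
  exact hx.injective.eq_iff

include hu

theorem distAbove_one : distAbove u x (x 1) = (((x 2 - x 1) / u : ℝ) : WithTop ℝ) := by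
  unfold distAbove
  apply le_antisymm
  · apply Finset.min_le
    refine Finset.mem_image.2 ⟨2, ?_, rfl⟩
    simp only [Finset.mem_filter, Finset.mem_univ, true_and]
    refine hx ?_
    show (1 : ℕ) < 2
    norm_num
  · apply Finset.le_min
    intro v hv
    obtain ⟨j, hj, rfl⟩ := Finset.mem_image.1 hv
    simp only [Finset.mem_filter, Finset.mem_univ, true_and] at hj
    rw [hx.lt_iff_lt] at hj
    refine WithTop.coe_le_coe.2 ?_
    have h2 : (2 : Fin (n + 3)) ≤ j := by
      have h3 : (1 : ℕ) < (j : ℕ) := hj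
      show (2 : ℕ) ≤ (j : ℕ)
      omega
    have h4 := hx.monotone h2
    apply div_le_div_of_nonneg_right _ hu.le
    linarith

end views

/-- the basic view -/
noncomputable def V0 : View := ⟨((1 / 4 : ℝ) : WithTop ℝ), ((3 / 4 : ℝ) : WithTop ℝ), 1⟩

/-- the initial configuration of the sub-instance -/
noncomputable def Y0 (m : ℕ) (y1 : ℝ) (j : Fin (m + 2)) : ℝ :=
  if j = 0 then 0 else y1 + (1 - y1) * (((j : ℕ) : ℝ) - 1) / m

theorem Y0_zero (m : ℕ) (y1 : ℝ) : Y0 m y1 0 = 0 := if_pos rfl

theorem Y0_last {m : ℕ} (hm : 1 ≤ m) (y1 : ℝ) : Y0 m y1 (Fin.last (m + 1)) = 1 := by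
  have hne : Fin.last (m + 1) ≠ 0 := by
    intro h
    have := congrArg Fin.val h
    simp at this
  have hm' : (m : ℝ) ≠ 0 := by
    have : m ≠ 0 := by omega
    exact_mod_cast this
  unfold Y0
  rw [if_neg hne]
  simp only [Fin.val_last]
  push_cast
  field_simp
  ring

theorem Y0_one {m : ℕ} (y1 : ℝ) : Y0 m y1 1 = y1 := by
  have hne : (1 : Fin (m + 2)) ≠ 0 := by
    intro h
    have := congrArg Fin.val h
    simp at this
  unfold Y0
  rw [if_neg hne]
  simp

theorem Y0_mono {m : ℕ} (hm : 1 ≤ m) {y1 : ℝ} (h0 : 0 < y1) (h1 : y1 < 1) :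
    StrictMono (Y0 m y1) := by
  have hm' : (0 : ℝ) < m := by exact_mod_cast hm
  intro i j hij
  have hj : j ≠ 0 := fun h => by rw [h] at hij; exact absurd hij (Fin.not_lt_zero i)
  unfold Y0
  rw [if_neg hj]
  have hj1 : (1 : ℝ) ≤ ((j : ℕ) : ℝ) := by
    have : 0 < (j : ℕ) := Nat.pos_of_ne_zero (fun h => hj (Fin.ext h))
    exact_mod_cast this
  split_ifs with hi
  · have : 0 ≤ (1 - y1) * (((j : ℕ) : ℝ) - 1) / m := by
      apply div_nonneg _ hm'.le
      exact mul_nonneg (by linarith) (by linarith)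
    linarith
  · have hij' : ((i : ℕ) : ℝ) < ((j : ℕ) : ℝ) := by exact_mod_cast hij
    have : (1 - y1) * (((i : ℕ) : ℝ) - 1) / m < (1 - y1) * (((j : ℕ) : ℝ) - 1) / m := by
      apply div_lt_div_of_pos_right _ hm'
      exact mul_lt_mul_of_pos_left (by linarith) (by linarith)
    linarith

theorem exists_bad (f : Protocol) : ∃ (m : ℕ) (c : Frame) (δ : ℝ) (E : Execution (m + 2)),
    Admissible f (fun _ => c) δ E ∧ ∃ ε > 0, ∀ t, 0 ≤ t → ¬ Covering (E.config t) ε := by
  by_contra hbad
  push Not at hbad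
  -- the displacement in the basic view is nonzero
  have hD : f V0 ≠ 0 := by
    intro hD
    let c0 : Frame := ⟨1, one_pos, false⟩
    let x0 : Fin 3 → ℝ := ![0, 1 / 4, 1]
    have hx0 : StrictMono x0 := by
      intro i j hij
      fin_cases i <;> fin_cases j <;> simp_all [x0]
      norm_num
    have hv : viewFrom c0 x0 (x0 1) = V0 := by
      have e1 := distBelow_one (n := 0) hx0 (u := 1)
      have e2 := distAbove_one (n := 0) hx0 (u := 1) one_pos
      have e3 := here_one (n := 0) hx0
      unfold viewFrom V0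
      simp only [c0, Bool.false_eq_true, if_false]
      rw [e1, e2, e3]
      have f1 : (x0 1 - x0 0) / 1 = 1 / 4 := by simp [x0]
      have f2 : (x0 2 - x0 1) / 1 = 3 / 4 := by simp [x0]; norm_num
      rw [f1, f2]
    have hstep : step (m := 1) f c0 x0 = x0 := by
      funext i
      by_cases h : i = 0 ∨ i = Fin.last 2
      · rcases h with rfl | rfl
        · exact step_zero (m := 1) f c0 x0
        · exact step_last (m := 1) f c0 x0
      · have hi : i = 1 := by
          push Not at h
          obtain ⟨h1, h2⟩ := h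
          fin_cases i
          · exact absurd rfl h1
          · rfl
          · exact absurd rfl h2
        subst hi
        rw [step_inner (m := 1) f c0 x0 (by decide) (by decide)]
        unfold moveBy
        rw [hv, hD]
        ring
    have hruns : ∀ r, runs (m := 1) f c0 x0 r = x0 := by
      intro r
      induction r with
      | zero => rfl
      | succ r ih => rw [runs_succ, ih, hstep]
    have hok := (fsync_ok (m := 1) f c0 hx0 rfl rfl one_pos).admissible
    obtain ⟨t, ht, hcov⟩ := hbad 1 c0 1 _ hok (1 / 8) (by norm_num)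
    obtain ⟨k, ρ, -, -, hk⟩ := posOf_eq (runs (m := 1) f c0 x0) (t := t)
    have hconf : (toExec (runs (m := 1) f c0 x0) (fun _ k => k) (fun _ k => k)).config t = x0 := by
      funext i
      show posOf (runs (m := 1) f c0 x0) i t = x0 i
      rw [hk i, hruns, hruns]
      ring
    rw [hconf] at hcov
    have h1 := (hcov 0).1
    have e1 : x0 (Fin.succ 0) = 1 / 4 := rfl
    have e2 : x0 (Fin.castSucc 0) = 0 := rfl
    rw [e1, e2] at h1
    rw [sub_zero, abs_of_pos (by norm_num)] at h1
    norm_num at h1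
  -- set up the frame and the position of the delayed sensor
  set D := f V0 with hDdef
  let c : Frame := ⟨1 / 2, by norm_num, decide (D < 0)⟩
  obtain ⟨a, ha8, ha38, hagap⟩ : ∃ a : ℝ, 1 / 8 ≤ a ∧ a ≤ 3 / 8 ∧
      ((D < 0 ∧ a = 3 / 8) ∨ (¬ D < 0 ∧ a = 1 / 8)) := by
    by_cases h : D < 0
    · exact ⟨3 / 8, by norm_num, le_rfl, Or.inl ⟨h, rfl⟩⟩
    · exact ⟨1 / 8, le_rfl, by norm_num, Or.inr ⟨h, rfl⟩⟩
  have ha : 0 < a := by linarith
  have ha1 : a < 1 := by linarith
  have h1a : 0 < 1 - a := by linarith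
  have habs : 0 < |D| := abs_pos.2 hD
  set y1 : ℝ := (1 / 2 - a) / (1 - a) with hy1
  have hy10 : 0 < y1 := div_pos (by linarith) h1a
  have hy11 : y1 < 1 := by
    rw [hy1, div_lt_one h1a]
    linarith
  set w : ℝ := min (|D| / 2) (1 / 2 - a) / 2 with hw
  have hw0 : 0 < w := by
    have : 0 < min (|D| / 2) (1 / 2 - a) := lt_min (by linarith) (by linarith)
    linarith
  have hwD : w ≤ |D| / 2 := by
    have := min_le_left (|D| / 2) (1 / 2 - a)
    linarith
  have hwa : w < 1 / 2 - a := by
    have := min_le_right (|D| / 2) (1 / 2 - a)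
    linarith
  set ζ : ℝ := w / (1 - a) with hζdef
  have hζ : 0 < ζ := div_pos hw0 h1a
  have hζw : (1 - a) * ζ = w := by
    rw [hζdef]
    field_simp
  have hζy : ζ < y1 := by
    rw [hζdef, hy1]
    exact div_lt_div_of_pos_right hwa h1a
  -- the number of sensors
  obtain ⟨N, hN⟩ := exists_nat_gt (2 / ζ)
  let m : ℕ := max 8 N
  have hm8 : 8 ≤ m := le_max_left _ _
  have hmN : (N : ℝ) ≤ m := by exact_mod_cast le_max_right 8 N
  have hmζ : 2 / ((m : ℝ) + 1) < ζ := by
    rw [div_lt_iff₀ (by positivity)]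
    rw [div_lt_iff₀ hζ] at hN
    nlinarith
  have hmono := Y0_mono (m := m) (by omega) hy10 hy11
  have hY0 := Y0_zero m y1
  have hYl := Y0_last (m := m) (by omega) y1
  -- the lifted initial configuration
  have hlift : StrictMono (lift a (Y0 m y1)) := by
    intro i j hij
    refine Fin.cases ?_ (fun i => ?_) i hij
    · refine Fin.cases ?_ (fun j => ?_) j
      · intro h; exact absurd h (lt_irrefl _)
      · intro _
        rw [lift_zero, lift_succ]
        have : 0 ≤ Y0 m y1 j := by rw [← hY0]; exact hmono.monotone (Fin.zero_le j)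
        nlinarith
    · refine Fin.cases ?_ (fun j => ?_) j
      · intro h; exact absurd h (Fin.not_lt_zero _)
      · intro h
        rw [lift_succ, lift_succ]
        have := hmono (Fin.succ_lt_succ_iff.1 h)
        nlinarith
  have hl0 : lift a (Y0 m y1) 0 = 0 := lift_zero _ _
  have hl1 : lift a (Y0 m y1) 1 = a := by
    rw [one_eq, lift_succ, hY0]; ring
  have hl2 : lift a (Y0 m y1) 2 = 1 / 2 := by
    have e : (2 : Fin (m + 3)) = (1 : Fin (m + 2)).succ := rfl
    rw [e, lift_succ, Y0_one, hy1]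
    field_simp
    ring
  have hview : viewFrom c (lift a (Y0 m y1)) (lift a (Y0 m y1) 1) = V0 := by
    have e1 := distBelow_one hlift (u := (1 / 2 : ℝ))
    have e2 := distAbove_one hlift (u := (1 / 2 : ℝ)) (by norm_num)
    have e3 := here_one hlift
    unfold viewFrom V0
    rw [e3]
    rcases hagap with ⟨h, rfl⟩ | ⟨h, rfl⟩
    · simp only [c, h, decide_true, if_true]
      rw [e1, e2, hl0, hl1, hl2]
      norm_num
    · simp only [c, h, decide_false, Bool.false_eq_true, if_false]
      rw [e1, e2, hl0, hl1, hl2]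
      norm_num
  have hmove : moveBy f c (lift a (Y0 m y1)) 1 = |D| / 2 := by
    unfold moveBy
    rw [hview]
    by_cases h : D < 0
    · have : c.flip = true := by simp [c, h]
      rw [this, if_pos rfl, abs_of_neg h]
      show -1 * (1 / 2 * D) = -D / 2
      ring
    · have : c.flip = false := by simp [c, h]
      rw [this, abs_of_nonneg (not_lt.1 h)]
      show (if false = true then (-1 : ℝ) else 1) * (1 / 2 * D) = D / 2
      simp
      ring
  -- the synchronous execution of the sub-instance brings a sensor close to its left end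
  have hsub := (fsync_ok f (subFrame c a ha1) hmono hY0 hYl one_pos).admissible
  obtain ⟨t, ht, hcov⟩ := hbad m (subFrame c a ha1) 1 _ hsub (1 / ((m : ℝ) + 1)) (by positivity)
  obtain ⟨k, ρ, hρ0, hρ1, hk⟩ := posOf_eq (runs f (subFrame c a ha1) (Y0 m y1)) (t := t)
  have hex : ∃ r, ∃ j, j ≠ 0 ∧ j ≠ Fin.last (m + 1) ∧
      runs f (subFrame c a ha1) (Y0 m y1) r j ≤ ζ := by
    by_contra hcon
    push Not at hcon
    have h10 : (1 : Fin (m + 2)) ≠ 0 := by
      intro h
      have := congrArg Fin.val h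
      simp at this
    have h1l : (1 : Fin (m + 2)) ≠ Fin.last (m + 1) := by
      intro h
      have := congrArg Fin.val h
      simp at this
      omega
    have g1 := hcon k 1 h10 h1l
    have g2 := hcon (k + 1) 1 h10 h1l
    have h2 := (hcov 0).2
    have e1 : (Fin.succ 0 : Fin (m + 2)) = 1 := rfl
    have e2 : (Fin.castSucc 0 : Fin (m + 2)) = 0 := rfl
    have e3 : ∀ i, (toExec (runs f (subFrame c a ha1) (Y0 m y1)) (fun _ k => k)
        (fun _ k => k)).config t i = runs f (subFrame c a ha1) (Y0 m y1) k i +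
        ρ * (runs f (subFrame c a ha1) (Y0 m y1) (k + 1) i -
          runs f (subFrame c a ha1) (Y0 m y1) k i) := hk
    rw [e1, e2, e3, e3, runs_left, runs_left, hY0] at h2
    have h3 := (abs_le.1 h2).2
    have h4 : 1 / ((m : ℝ) + 1) + 1 / ((m : ℝ) + 1) = 2 / ((m : ℝ) + 1) := by ring
    rw [h4] at h3
    nlinarith
  classical
  obtain ⟨js, hj0, hjl, hjs⟩ := Nat.find_spec hex
  have hmin := fun r hr => Nat.find_min hex (m := r) hr
  have hR0 : Nat.find hex ≠ 0 := by
    intro h
    rw [h, runs_zero] at hjs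
    have h1 : (1 : Fin (m + 2)) ≤ js := by
      show (1 : ℕ) ≤ (js : ℕ)
      exact Nat.pos_of_ne_zero (fun h => hj0 (Fin.ext h))
    have h2 := hmono.monotone h1
    rw [Y0_one] at h2
    linarith
  obtain ⟨K, hK⟩ := Nat.exists_eq_succ_of_ne_zero hR0
  rw [hK] at hjs
  have hK' : ∀ r ≤ K, ∀ j, j ≠ 0 → j ≠ Fin.last (m + 1) →
      ζ < runs f (subFrame c a ha1) (Y0 m y1) r j := by
    intro r hr j hj hj'
    by_contra hcon
    exact hmin r (by omega) ⟨j, hj, hj', not_lt.1 hcon⟩
  obtain ⟨δ, hok⟩ := rounds_bad (f := f) (c := c) ha1 ha hmono hY0 hYl hζ hj0 hjl hK' hjs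
    (by rw [hmove, hζw]; linarith)
  obtain ⟨t', ht', hcov'⟩ := hbad (m + 1) c δ _ hok.admissible (1 / ((m : ℝ) + 2) ^ 2)
    (by positivity)
  exact not_covering_bad ha1 ha8 hm8 hY0 hYl hζ hj0 hjl hcov'

end Pool.Agent.AsyncSeg
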