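import Pool.Agent.AsyncSeg.Rounds

/-!
No protocol solves approximate covering of the segment under the asynchronous scheduler.
-/

namespace Pool.Agent.AsyncSeg

/-! ### fully synchronous executions -/

/-- one synchronous round -/
noncomputable def step {m : ℕ} (f : Protocol) (c : Frame) (x : Fin (m + 2) → ℝ) :
    Fin (m + 2) → ℝ :=
  fun i => if i = 0 ∨ i = Fin.last (m + 1) then x i else x i + moveBy f c x i

theorem step_zero {m : ℕ} (f : Protocol) (c : Frame) (x : Fin (m + 2) → ℝ) :
    step f c x 0 = x 0 := by simp [step]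

theorem step_last {m : ℕ} (f : Protocol) (c : Frame) (x : Fin (m + 2) → ℝ) :
    step f c x (Fin.last (m + 1)) = x (Fin.last (m + 1)) := by simp [step]

theorem step_inner {m : ℕ} (f : Protocol) (c : Frame) (x : Fin (m + 2) → ℝ) {i : Fin (m + 2)}
    (h0 : i ≠ 0) (h1 : i ≠ Fin.last (m + 1)) : step f c x i = x i + moveBy f c x i := by
  simp [step, h0, h1]

/-- iterated rounds -/
noncomputable def runs {m : ℕ} (f : Protocol) (c : Frame) (x : Fin (m + 2) → ℝ) (r : ℕ) :
    Fin (m + 2) → ℝ := (step f c)^[r] x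

theorem runs_zero {m : ℕ} (f : Protocol) (c : Frame) (x : Fin (m + 2) → ℝ) :
    runs f c x 0 = x := rfl

theorem runs_succ {m : ℕ} (f : Protocol) (c : Frame) (x : Fin (m + 2) → ℝ) (r : ℕ) :
    runs f c x (r + 1) = step f c (runs f c x r) :=
  Function.iterate_succ_apply' _ _ _

theorem runs_left {m : ℕ} (f : Protocol) (c : Frame) (x : Fin (m + 2) → ℝ) (r : ℕ) :
    runs f c x r 0 = x 0 := by
  induction r with
  | zero => rfl
  | succ r ih => rw [runs_succ, step_zero, ih]

theorem runs_right {m : ℕ} (f : Protocol) (c : Frame) (x : Fin (m + 2) → ℝ) (r : ℕ) :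
    runs f c x r (Fin.last (m + 1)) = x (Fin.last (m + 1)) := by
  induction r with
  | zero => rfl
  | succ r ih => rw [runs_succ, step_last, ih]

theorem fsync_ok {m : ℕ} (f : Protocol) (c : Frame) {x : Fin (m + 2) → ℝ} (hx : StrictMono x)
    (h0 : x 0 = 0) (h1 : x (Fin.last (m + 1)) = 1) {δ : ℝ} (hδ : 0 < δ) :
    RoundsOK f c δ (runs f c x) (fun _ k => k) (fun _ k => k) where
  delta_pos := hδ
  initial := hx
  left_end := fun r => by rw [runs_left, h0]
  right_end := fun r => by rw [runs_right, h1]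
  le := fun _ _ => le_rfl
  lt := fun _ k => Nat.lt_succ_self k
  idle0 := fun _ r hr => absurd hr (Nat.not_lt_zero r)
  idle := fun _ k r h1 h2 => by omega
  move := by
    intro i hi0 hil k
    rw [runs_succ, step_inner f c _ hi0 hil]
    exact ⟨Set.right_mem_uIcc, Or.inl rfl⟩

/-! ### embedding of a smaller instance -/

/-- the configuration of a sub-instance on `[a, 1]`, with one more sensor at `0` -/
noncomputable def lift {n : ℕ} (a : ℝ) (y : Fin n → ℝ) : Fin (n + 1) → ℝ :=
  Fin.cons 0 (fun j => a + (1 - a) * y j)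

theorem lift_zero {n : ℕ} (a : ℝ) (y : Fin n → ℝ) : lift a y 0 = 0 := rfl

theorem lift_succ {n : ℕ} (a : ℝ) (y : Fin n → ℝ) (j : Fin n) :
    lift a y j.succ = a + (1 - a) * y j := rfl

theorem distAbove_lift {n : ℕ} {a u : ℝ} (ha : 0 < a) (ha1 : a < 1) (hu : 0 < u)
    (y : Fin n → ℝ) {p : ℝ} (hp : 0 ≤ p) :
    distAbove u (lift a y) (a + (1 - a) * p) = distAbove (u / (1 - a)) y p := by
  have h1a : 0 < 1 - a := by linarith
  unfold distAbove
  congr 1
  ext v
  simp only [Finset.mem_image, Finset.mem_filter, Finset.mem_univ, true_and]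
  constructor
  · rintro ⟨j, hj, rfl⟩
    refine Fin.cases ?_ (fun j => ?_) j hj
    · intro hj
      rw [lift_zero] at hj
      nlinarith
    · intro hj
      rw [lift_succ] at hj ⊢
      refine ⟨j, by nlinarith, ?_⟩
      field_simp
      ring
  · rintro ⟨j, hj, rfl⟩
    refine ⟨j.succ, ?_, ?_⟩
    · rw [lift_succ]
      nlinarith
    · rw [lift_succ]
      field_simp
      ring

theorem distBelow_lift {m : ℕ} {a u : ℝ} (ha : 0 < a) (ha1 : a < 1) (hu : 0 < u)
    (y : Fin (m + 2) → ℝ) (h0 : y 0 = 0) {p : ℝ} (hp : 0 < p) :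
    distBelow u (lift a y) (a + (1 - a) * p) = distBelow (u / (1 - a)) y p := by
  have h1a : 0 < 1 - a := by linarith
  unfold distBelow
  set S := (Finset.univ.filter fun j => y j < p).image fun j => (p - y j) / (u / (1 - a)) with hS
  have hset : (Finset.univ.filter fun j => lift a y j < a + (1 - a) * p).image
      (fun j => (a + (1 - a) * p - lift a y j) / u) = insert ((a + (1 - a) * p) / u) S := by
    ext v
    simp only [Finset.mem_image, Finset.mem_filter, Finset.mem_univ, true_and,
      Finset.mem_insert, hS]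
    constructor
    · rintro ⟨j, hj, rfl⟩
      refine Fin.cases ?_ (fun j => ?_) j hj
      · intro _
        left
        rw [lift_zero]
        ring
      · intro hj
        right
        rw [lift_succ] at hj ⊢
        refine ⟨j, by nlinarith, ?_⟩
        field_simp
        ring
    · rintro (rfl | ⟨j, hj, rfl⟩)
      · refine ⟨0, ?_, ?_⟩
        · rw [lift_zero]
          nlinarith
        · rw [lift_zero]
          ring
      · refine ⟨j.succ, ?_, ?_⟩
        · rw [lift_succ]
          nlinarith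
        · rw [lift_succ]
          field_simp
          ring
  rw [hset, Finset.min_insert]
  refine min_eq_right ?_
  have hmem : (p - y 0) / (u / (1 - a)) ∈ S :=
    Finset.mem_image.2 ⟨0, by simp [h0, hp], rfl⟩
  refine (Finset.min_le hmem).trans ?_
  rw [h0]
  refine WithTop.coe_le_coe.2 ?_
  rw [div_div_eq_mul_div]
  apply div_le_div_of_nonneg_right _ hu.le
  nlinarith

theorem here_lift {m : ℕ} {a : ℝ} (ha : 0 < a) (ha1 : a < 1)
    (y : Fin (m + 2) → ℝ) {p : ℝ} (hp : 0 < p) :
    (Finset.univ.filter fun j => lift a y j = a + (1 - a) * p).card =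
      (Finset.univ.filter fun j => y j = p).card := by
  have h1a : 0 < 1 - a := by linarith
  rw [← Finset.card_map (Fin.succEmb (m + 2)) (s := Finset.univ.filter fun j => y j = p)]
  congr 1
  ext j
  simp only [Finset.mem_filter, Finset.mem_univ, true_and, Finset.mem_map, Fin.coe_succEmb]
  constructor
  · intro hj
    refine Fin.cases ?_ (fun j => ?_) j hj
    · intro hj
      rw [lift_zero] at hj
      nlinarith
    · intro hj
      rw [lift_succ] at hj
      refine ⟨j, ?_, rfl⟩
      have h2 : (1 - a) * y j = (1 - a) * p := by linarith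
      exact mul_left_cancel₀ h1a.ne' h2
  · rintro ⟨j, hj, rfl⟩
    rw [lift_succ, hj]

/-- the frame seen from the sub-instance -/
noncomputable def subFrame (c : Frame) (a : ℝ) (ha1 : a < 1) : Frame where
  unit := c.unit / (1 - a)
  unit_pos := div_pos c.unit_pos (by linarith)
  flip := c.flip

theorem moveBy_lift {m : ℕ} (f : Protocol) (c : Frame) {a : ℝ} (ha : 0 < a) (ha1 : a < 1)
    (y : Fin (m + 2) → ℝ) (h0 : y 0 = 0) (j : Fin (m + 2)) (hj : 0 < y j) :
    moveBy f c (lift a y) j.succ = (1 - a) * moveBy f (subFrame c a ha1) y j := by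
  have h1a : 0 < 1 - a := by linarith
  have hv : viewFrom c (lift a y) (lift a y j.succ) = viewFrom (subFrame c a ha1) y (y j) := by
    rw [lift_succ]
    unfold viewFrom
    rw [distAbove_lift ha ha1 c.unit_pos y hj.le, distBelow_lift ha ha1 c.unit_pos y h0 hj,
      here_lift ha ha1 y hj]
    rfl
  unfold moveBy
  rw [hv]
  have hu : (subFrame c a ha1).unit = c.unit / (1 - a) := rfl
  have hf : (subFrame c a ha1).flip = c.flip := rfl
  rw [hu, hf]
  field_simp

/-! ### coverings -/

theorem covering_telescope {m : ℕ} {x : Fin (m + 2) → ℝ} {ε : ℝ} (h : Covering x ε)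
    (i : Fin (m + 2)) : ∀ j : Fin (m + 2), i ≤ j →
      x j - x i ≤ ((j : ℕ) - (i : ℕ) : ℝ) * (1 / ((m : ℝ) + 1) + ε) := by
  intro j
  induction j using Fin.induction with
  | zero =>
    intro hij
    have : i = 0 := Fin.le_zero_iff.1 hij
    subst this
    simp
  | succ j ih =>
    intro hij
    rcases eq_or_lt_of_le hij with heq | hlt
    · subst heq
      simp
    · have hle : i ≤ j.castSucc := Fin.le_castSucc_iff.2 hlt
      have h1 := ih hle
      have h2 := (h j).2
      have h3 := (abs_le.1 h2).2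
      have e1 : ((j.castSucc : ℕ) : ℝ) = (j : ℕ) := by simp
      have e2 : ((j.succ : ℕ) : ℝ) = (j : ℕ) + 1 := by simp
      rw [e1] at h1
      rw [e2]
      nlinarith

/-- two sensors (other than the left end) at the same place: no good covering -/
theorem not_covering_of_eq {m : ℕ} {x : Fin (m + 3) → ℝ} (h0 : x 0 = 0)
    (h1 : x (Fin.last (m + 2)) = 1) (j : Fin (m + 2)) (hj0 : j ≠ 0) (hj : x 1 = x j.succ) :
    ¬ Covering (m := m + 1) x (1 / ((m : ℝ) + 2) ^ 2) := by
  intro h
  have t1 := covering_telescope (m := m + 1) h 0 1 (Fin.zero_le _)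
  have t2 := covering_telescope (m := m + 1) h j.succ (Fin.last (m + 2)) (Fin.le_last _)
  rw [h0] at t1
  rw [h1, ← hj] at t2
  have e1 : (((1 : Fin (m + 1 + 2)) : ℕ) : ℝ) = 1 := by simp
  have e2 : (((0 : Fin (m + 1 + 2)) : ℕ) : ℝ) = 0 := by simp
  have e3 : (((Fin.last (m + 2) : Fin (m + 1 + 2)) : ℕ) : ℝ) = m + 2 := by simp
  have e4 : (((j.succ : Fin (m + 1 + 2)) : ℕ) : ℝ) = (j : ℕ) + 1 := by simp
  rw [e1, e2] at t1
  rw [e3, e4] at t2
  have hj1 : (1 : ℝ) ≤ (j : ℕ) := by
    have : 0 < (j : ℕ) := Nat.pos_of_ne_zero (fun h => hj0 (Fin.ext h))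
    exact_mod_cast this
  push_cast at t1 t2
  have hm : (0 : ℝ) < (m : ℝ) + 2 := by positivity
  set s : ℝ := 1 / ((m : ℝ) + 1 + 1) + 1 / ((m : ℝ) + 2) ^ 2 with hs
  have hs0 : 0 < s := by positivity
  have h3 : 1 ≤ ((m : ℝ) + 1) * s := by nlinarith
  have h4 : s = ((m : ℝ) + 3) / ((m : ℝ) + 2) ^ 2 := by
    rw [hs]
    have : (m : ℝ) + 1 + 1 = m + 2 := by ring
    rw [this]
    field_simp
    ring
  rw [h4, mul_div_assoc', le_div_iff₀ (by positivity)] at h3
  nlinarith

/-- the sensors co-located stay co-located -/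
theorem runs_eq {m : ℕ} (f : Protocol) (c : Frame) {x : Fin (m + 2) → ℝ} {i j : Fin (m + 2)}
    (hi0 : i ≠ 0) (hil : i ≠ Fin.last (m + 1)) (hj0 : j ≠ 0) (hjl : j ≠ Fin.last (m + 1))
    (h : x i = x j) (r : ℕ) : runs f c x r i = runs f c x r j := by
  induction r with
  | zero => exact h
  | succ r ih =>
    rw [runs_succ, step_inner f c _ hi0 hil, step_inner f c _ hj0 hjl]
    unfold moveBy
    rw [ih]

end Pool.Agent.AsyncSeg
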