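import Pool.Agent.AsyncSeg.Defs

/-!
Executions organised in rounds: in round `r` (the time interval `[3 r, 3 r + 3]`) the sensors move
from the configuration `C r` to the configuration `C (r + 1)` during `[3 r + 1, 3 r + 2]`.
-/

namespace Pool.Agent.AsyncSeg

/-- clamping to `[0, 1]` -/
noncomputable def ramp (s : ℝ) : ℝ := max 0 (min 1 s)

theorem ramp_nonneg (s : ℝ) : 0 ≤ ramp s := le_max_left _ _

theorem ramp_le_one (s : ℝ) : ramp s ≤ 1 := max_le zero_le_one (min_le_left _ _)

theorem ramp_of_le {s : ℝ} (h : s ≤ 0) : ramp s = 0 :=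
  max_eq_left ((min_le_right _ _).trans h)

theorem ramp_of_ge {s : ℝ} (h : 1 ≤ s) : ramp s = 1 := by
  unfold ramp
  rw [min_eq_left h]
  exact max_eq_right zero_le_one

theorem ramp_of_mem {s : ℝ} (h0 : 0 ≤ s) (h1 : s ≤ 1) : ramp s = s := by
  unfold ramp
  rw [min_eq_right h1, max_eq_right h0]

/-- the position at time `t` -/
noncomputable def posOf {n : ℕ} (C : ℕ → Fin n → ℝ) (i : Fin n) (t : ℝ) : ℝ :=
  C ⌊t / 3⌋₊ i + ramp (t - 3 * ⌊t / 3⌋₊ - 1) * (C (⌊t / 3⌋₊ + 1) i - C ⌊t / 3⌋₊ i)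

theorem floor_eq {t : ℝ} {k : ℕ} (h1 : 3 * (k : ℝ) ≤ t) (h2 : t < 3 * k + 3) :
    ⌊t / 3⌋₊ = k := by
  have h0 : 0 ≤ t / 3 := by
    have : (0 : ℝ) ≤ k := Nat.cast_nonneg k
    linarith
  rw [Nat.floor_eq_iff h0]
  constructor <;> linarith

theorem posOf_start {n : ℕ} (C : ℕ → Fin n → ℝ) (i : Fin n) {t : ℝ} {k : ℕ}
    (h1 : 3 * (k : ℝ) ≤ t) (h2 : t ≤ 3 * k + 1) : posOf C i t = C k i := by
  unfold posOf
  rw [floor_eq h1 (by linarith), ramp_of_le (by linarith)]
  ring

theorem posOf_end {n : ℕ} (C : ℕ → Fin n → ℝ) (i : Fin n) {t : ℝ} {k : ℕ}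
    (h1 : 3 * (k : ℝ) + 2 ≤ t) (h2 : t ≤ 3 * k + 4) : posOf C i t = C (k + 1) i := by
  rcases lt_or_ge t (3 * k + 3) with h | h
  · unfold posOf
    rw [floor_eq (by linarith) h, ramp_of_ge (by linarith)]
    ring
  · have := posOf_start C i (t := t) (k := k + 1) (by push_cast; linarith)
      (by push_cast; linarith)
    exact this

theorem posOf_mid {n : ℕ} (C : ℕ → Fin n → ℝ) (i : Fin n) {t : ℝ} {k : ℕ}
    (h1 : 3 * (k : ℝ) + 1 ≤ t) (h2 : t ≤ 3 * k + 2) :
    posOf C i t = C k i + (t - 3 * k - 1) * (C (k + 1) i - C k i) := by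
  unfold posOf
  rw [floor_eq (by linarith) (by linarith), ramp_of_mem (by linarith) (by linarith)]

/-- at any time all sensors are at the same proportion of their segments -/
theorem posOf_eq {n : ℕ} (C : ℕ → Fin n → ℝ) {t : ℝ} :
    ∃ k : ℕ, ∃ ρ : ℝ, 0 ≤ ρ ∧ ρ ≤ 1 ∧ ∀ i, posOf C i t = C k i + ρ * (C (k + 1) i - C k i) :=
  ⟨⌊t / 3⌋₊, ramp _, ramp_nonneg _, ramp_le_one _, fun _ => rfl⟩

theorem movesTowards_posOf {n : ℕ} (C : ℕ → Fin n → ℝ) (i : Fin n) (k : ℕ) {q δ : ℝ}
    (h1 : C (k + 1) i ∈ Set.uIcc (C k i) q)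
    (h2 : C (k + 1) i = q ∨ δ ≤ |C (k + 1) i - C k i|) :
    MovesTowards (posOf C i) (3 * k + 1) (3 * k + 2) q δ := by
  have hmid : ∀ t, 3 * (k : ℝ) + 1 ≤ t → t ≤ 3 * k + 2 →
      posOf C i t = C k i + (t - 3 * k - 1) * (C (k + 1) i - C k i) :=
    fun t ht1 ht2 => posOf_mid C i ht1 ht2
  refine ⟨?_, ?_, ?_⟩
  · refine ContinuousOn.congr (f := fun t => C k i + (t - 3 * k - 1) * (C (k + 1) i - C k i))
      (by fun_prop) ?_
    intro t ht
    exact hmid t ht.1 ht.2
  · intro t t' hs htt he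
    rw [hmid t hs (htt.trans he), hmid t' (hs.trans htt) he]
    set D := C (k + 1) i - C k i with hD
    have e1 : C (k + 1) i = C k i + D := by rw [hD]; ring
    rw [e1] at h1
    rcases le_total (C k i) q with hq | hq
    · rw [Set.uIcc_of_le hq] at h1
      have hD0 : 0 ≤ D := by linarith [h1.1]
      have hle : C k i + (t - 3 * k - 1) * D ≤ q := by
        nlinarith [h1.2]
      rw [Set.uIcc_of_le hle]
      constructor
      · nlinarith
      · nlinarith [h1.2]
    · rw [Set.uIcc_of_ge hq] at h1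
      have hD0 : D ≤ 0 := by linarith [h1.2]
      have hge : q ≤ C k i + (t - 3 * k - 1) * D := by
        nlinarith [h1.1]
      rw [Set.uIcc_of_ge hge]
      constructor
      · nlinarith [h1.1]
      · nlinarith
  · have hs := posOf_start C i (t := 3 * (k : ℝ) + 1) (k := k) (by linarith) le_rfl
    have he := posOf_end C i (t := 3 * (k : ℝ) + 2) (k := k) le_rfl (by linarith)
    rw [hs, he]
    exact h2

/-- The execution given by the configurations `C r`, where the `k`-th cycle of sensor `i` has its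
Look in round `a i k` and its Move in round `b i k`. -/
noncomputable def toExec {n : ℕ} (C : ℕ → Fin n → ℝ) (a b : Fin n → ℕ → ℕ) : Execution n where
  pos := posOf C
  look := fun i k => 3 * (a i k)
  start := fun i k => 3 * (b i k) + 1
  stop := fun i k => 3 * (b i k) + 2

/-- The conditions for such an execution to be admissible. -/
structure RoundsOK {m : ℕ} (f : Protocol) (c : Frame) (δ : ℝ) (C : ℕ → Fin (m + 2) → ℝ)
    (a b : Fin (m + 2) → ℕ → ℕ) : Prop where
  delta_pos : 0 < δ
  initial : StrictMono (C 0)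
  left_end : ∀ r, C r 0 = 0
  right_end : ∀ r, C r (Fin.last (m + 1)) = 1
  le : ∀ i k, a i k ≤ b i k
  lt : ∀ i k, b i k < a i (k + 1)
  idle0 : ∀ i, ∀ r < b i 0, C (r + 1) i = C r i
  idle : ∀ i k r, b i k < r → r < b i (k + 1) → C (r + 1) i = C r i
  move : ∀ i, i ≠ 0 → i ≠ Fin.last (m + 1) → ∀ k,
    C (b i k + 1) i ∈ Set.uIcc (C (b i k) i) (C (a i k) i + moveBy f c (C (a i k)) i) ∧
    (C (b i k + 1) i = C (a i k) i + moveBy f c (C (a i k)) i ∨
      δ ≤ |C (b i k + 1) i - C (b i k) i|)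

theorem posOf_const {n : ℕ} (C : ℕ → Fin n → ℝ) (i : Fin n) {v : ℝ} {t : ℝ} (_ht : 0 ≤ t)
    (h : ∀ r, C r i = v) : posOf C i t = v := by
  obtain ⟨k, ρ, -, -, hk⟩ := posOf_eq C (t := t)
  rw [hk i, h, h]
  ring

theorem RoundsOK.admissible {m : ℕ} {f : Protocol} {c : Frame} {δ : ℝ}
    {C : ℕ → Fin (m + 2) → ℝ} {a b : Fin (m + 2) → ℕ → ℕ} (h : RoundsOK f c δ C a b) :
    Admissible f (fun _ => c) δ (toExec C a b) := by
  have hconf : ∀ r : ℕ, (toExec C a b).config (3 * (r : ℝ)) = C r := by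
    intro r
    funext i
    exact posOf_start C i le_rfl (by linarith)
  have hbmono : ∀ i k, b i k < b i (k + 1) := fun i k => (h.lt i k).trans_le (h.le i (k + 1))
  have hak : ∀ i k, k ≤ a i k := by
    intro i k
    induction k with
    | zero => exact Nat.zero_le _
    | succ k ih =>
      have h1 := h.le i k
      have h2 := h.lt i k
      omega
  constructor
  · exact h.delta_pos
  · have h0 := hconf 0
    simp only [Nat.cast_zero, mul_zero] at h0
    rw [h0]
    exact h.initial
  · intro t ht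
    exact posOf_const C 0 ht h.left_end
  · intro t ht
    exact posOf_const C (Fin.last (m + 1)) ht h.right_end
  · intro i _ _
    show (0 : ℝ) ≤ 3 * (a i 0 : ℝ)
    positivity
  · intro i _ _ k
    show 3 * (a i k : ℝ) < 3 * (b i k : ℝ) + 1 ∧ 3 * (b i k : ℝ) + 1 < 3 * (b i k : ℝ) + 2 ∧
      3 * (b i k : ℝ) + 2 < 3 * (a i (k + 1) : ℝ)
    have h1 : (a i k : ℝ) ≤ b i k := by exact_mod_cast h.le i k
    have h2 : (b i k : ℝ) + 1 ≤ a i (k + 1) := by exact_mod_cast h.lt i k
    refine ⟨by linarith, by linarith, by linarith⟩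
  · intro i _ _ t
    obtain ⟨k, hk⟩ := exists_nat_gt t
    refine ⟨k, ?_⟩
    show t < 3 * (a i k : ℝ)
    have h1 : (k : ℝ) ≤ a i k := by exact_mod_cast hak i k
    have h2 : (0 : ℝ) ≤ a i k := Nat.cast_nonneg _
    linarith
  · intro i _ _ t ht hst
    -- the position is constant up to round `b i 0`
    have hst' : t ≤ 3 * (b i 0 : ℝ) + 1 := hst
    have hC : ∀ r ≤ b i 0, C r i = C 0 i := by
      intro r
      induction r with
      | zero => intro _; rfl
      | succ r ih =>
        intro hr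
        rw [h.idle0 i r (by omega), ih (by omega)]
    have h0 : posOf C i 0 = C 0 i := by
      have := posOf_start C i (t := 0) (k := 0) (by norm_num) (by norm_num)
      exact this
    show posOf C i t = posOf C i 0
    rw [h0]
    have hfl : ⌊t / 3⌋₊ ≤ b i 0 := by
      have : ⌊t / 3⌋₊ < b i 0 + 1 := by
        rw [Nat.floor_lt (by positivity)]
        push_cast
        linarith
      omega
    rcases Nat.lt_or_ge ⌊t / 3⌋₊ (b i 0) with hlt | hge
    · unfold posOf
      rw [hC _ hlt.le, hC _ hlt]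
      ring
    · have heq : ⌊t / 3⌋₊ = b i 0 := le_antisymm hfl hge
      have hlo : 3 * (b i 0 : ℝ) ≤ t := by
        have := Nat.floor_le (show 0 ≤ t / 3 by positivity)
        rw [heq] at this
        linarith
      rw [posOf_start C i hlo hst', hC _ le_rfl]
  · intro i _ _ k t hst hend
    have hst' : 3 * (b i k : ℝ) + 2 ≤ t := hst
    have hend' : t ≤ 3 * (b i (k + 1) : ℝ) + 1 := hend
    have hb0 : (0 : ℝ) ≤ b i k := Nat.cast_nonneg _
    have ht : 0 ≤ t := by linarith
    have hC : ∀ r, b i k + 1 ≤ r → r ≤ b i (k + 1) → C r i = C (b i k + 1) i := by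
      intro r hr
      induction r, hr using Nat.le_induction with
      | base => intro _; rfl
      | succ r hr ih =>
        intro hr'
        rw [h.idle i k r (by omega) (by omega), ih (by omega)]
    have hstop : posOf C i (3 * (b i k : ℝ) + 2) = C (b i k + 1) i :=
      posOf_end C i le_rfl (by linarith)
    show posOf C i t = posOf C i (3 * (b i k : ℝ) + 2)
    rw [hstop]
    have hb := hbmono i k
    rcases le_or_gt t (3 * (b i k : ℝ) + 4) with hle | hgt
    · exact posOf_end C i hst' hle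
    · have hfl1 : b i k + 1 ≤ ⌊t / 3⌋₊ := by
        rw [Nat.le_floor_iff (by positivity)]
        push_cast
        linarith
      have hfl2 : ⌊t / 3⌋₊ ≤ b i (k + 1) := by
        have : ⌊t / 3⌋₊ < b i (k + 1) + 1 := by
          rw [Nat.floor_lt (by positivity)]
          push_cast
          linarith
        omega
      rcases Nat.lt_or_ge ⌊t / 3⌋₊ (b i (k + 1)) with hlt | hge
      · unfold posOf
        rw [hC _ hfl1 hfl2, hC _ (by omega) hlt]
        ring
      · have heq : ⌊t / 3⌋₊ = b i (k + 1) := le_antisymm hfl2 hge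
        have hlo : 3 * (b i (k + 1) : ℝ) ≤ t := by
          have := Nat.floor_le (show 0 ≤ t / 3 by positivity)
          rw [heq] at this
          linarith
        rw [posOf_start C i hlo hend', hC _ (by omega) le_rfl]
  · intro i hi0 hil k
    obtain ⟨h1, h2⟩ := h.move i hi0 hil k
    have htar : (toExec C a b).target f (fun _ => c) i k =
        C (a i k) i + moveBy f c (C (a i k)) i := by
      unfold Execution.target
      have e1 : (toExec C a b).look i k = 3 * (a i k : ℝ) := rfl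
      have e2 : (toExec C a b).pos i (3 * (a i k : ℝ)) = C (a i k) i :=
        posOf_start C i le_rfl (by linarith)
      rw [e1, e2, hconf]
    rw [htar]
    exact movesTowards_posOf C i (b i k) h1 h2

end Pool.Agent.AsyncSeg
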